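import Pool.Agent.Helper9.TF.Galvin
import Pool.Agent.Helper83.TC.Core

/-!
Some colour classes of an edge colouring and some further edges are recoloured from a palette.
-/

set_option autoImplicit false

namespace Pool.TF

open Pool.TC Finset
open scoped Classical

variable {V P α β : Type*}

/-- The edges which get their colour from the palette. -/
def Hed (E : EC (α ⊕ β) V) (S : Set V) (c : V → P ⊕ β) (u v : V) : Prop :=
  (∃ a : α, E.N (Sum.inl a) u = v) ∨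
    ∃ j : β, E.N (Sum.inr j) u = v ∧ ((u ∈ S ∧ c u = Sum.inr j) ∨ (v ∈ S ∧ c v = Sum.inr j))

theorem Hed.symm {E : EC (α ⊕ β) V} {S : Set V} {c : V → P ⊕ β} {u v : V} (h : Hed E S c u v) :
    Hed E S c v u := by
  rcases h with ⟨a, ha⟩ | ⟨j, hj, h⟩
  · exact Or.inl ⟨a, by rw [← ha, E.inv]⟩
  · exact Or.inr ⟨j, by rw [← hj, E.inv], h.symm⟩

theorem assemble (G : SimpleGraph V) (E : EC (α ⊕ β) V)
    (hcov : ∀ u v, G.Adj u v → ∃ a, E.N a u = v) (S : Set V) (c : V → P ⊕ β)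
    (g : V → V → P) (hsymm : ∀ u v, g u v = g v u)
    (hg1 : ∀ u v w, G.Adj u v → G.Adj u w → v ≠ w → Hed E S c u v → Hed E S c u w →
      g u v ≠ g u w)
    (hg2 : ∀ u ∈ S, ∀ v p, G.Adj u v → Hed E S c u v → c u = Sum.inl p → g u v ≠ p) :
    ∃ e : Sym2 V → P ⊕ β,
      (∀ u v w, G.Adj u v → G.Adj u w → v ≠ w → e s(u, v) ≠ e s(u, w)) ∧
      (∀ u ∈ S, ∀ v, G.Adj u v → e s(u, v) ≠ c u) := by
  let G0 : Sym2 V → P := Sym2.lift ⟨g, hsymm⟩
  let PH : Sym2 V → Prop := Sym2.lift ⟨Hed E S c, fun u v => propext ⟨Hed.symm, Hed.symm⟩⟩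
  let Q : Sym2 V → β → Prop := fun s j => ∃ u v, s = s(u, v) ∧ E.N (Sum.inr j) u = v
  let e : Sym2 V → P ⊕ β := fun s => if PH s then Sum.inl (G0 s) else
    if h : ∃ j, Q s j then Sum.inr h.choose else Sum.inl (G0 s)
  have K2 : ∀ u v j, Q s(u, v) j → E.N (Sum.inr j) u = v := by
    rintro u v a ⟨u', v', h1, h2⟩
    rw [Sym2.eq_iff] at h1
    rcases h1 with ⟨h1, h4⟩ | ⟨h1, h4⟩
    · subst h1; subst h4; exact h2
    · subst h1; subst h4; rw [← h2, E.inv]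
  have K : ∀ u v, G.Adj u v → (Hed E S c u v ∧ e s(u, v) = Sum.inl (g u v)) ∨
      (¬ Hed E S c u v ∧ ∃ j, E.N (Sum.inr j) u = v ∧ e s(u, v) = Sum.inr j) := by
    intro u v huv
    by_cases hH : Hed E S c u v
    · exact Or.inl ⟨hH, if_pos (show PH s(u, v) from hH)⟩
    · refine Or.inr ⟨hH, ?_⟩
      have h1 : ∃ j, Q s(u, v) j := by
        obtain ⟨a | j, ha⟩ := hcov u v huv
        · exact absurd (Or.inl ⟨a, ha⟩) hH
        · exact ⟨j, u, v, rfl, ha⟩
      exact ⟨h1.choose, K2 u v _ h1.choose_spec,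
        (if_neg (show ¬ PH s(u, v) from hH)).trans (dif_pos h1)⟩
  refine ⟨e, ?_, ?_⟩
  · intro u v w huv huw hvw h
    rcases K u v huv with ⟨h1, h2⟩ | ⟨h1, j, h2, h3⟩ <;>
      rcases K u w huw with ⟨k1, k2⟩ | ⟨k1, i, k2, k3⟩
    · rw [h2, k2] at h
      exact hg1 u v w huv huw hvw h1 k1 (Sum.inl_injective h)
    · rw [h2, k3] at h
      cases h
    · rw [h3, k2] at h
      cases h
    · rw [h3, k3] at h
      rw [Sum.inr_injective h, k2] at h2
      exact hvw h2.symm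
  · intro u hu v huv h
    rcases K u v huv with ⟨h1, h2⟩ | ⟨h1, j, h2, h3⟩
    · rw [h2] at h
      exact hg2 u hu v (g u v) huv h1 h.symm rfl
    · rw [h3] at h
      exact h1 (Or.inr ⟨j, h2, Or.inl ⟨hu, h.symm⟩⟩)

end Pool.TF
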