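import Mathlib

/-!
List colourings of the edges of a bipartite multigraph with strict preferences (Galvin's method),
and two-colourings crossing two involutions.
-/

set_option autoImplicit false

namespace Pool.TF

open Finset
open scoped Classical

section Galvin

variable {Y A B κ : Type*}

/-- The number of edges in `S` which are preferred to `e` at one of its ends. -/
noncomputable def outd (l : Y → A) (r : Y → B) (a b : Y → ℕ) (S : Finset Y) (e : Y) : ℕ :=
  (S.filter (fun f => l f = l e ∧ a f < a e)).card +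
    (S.filter (fun f => r f = r e ∧ b f < b e)).card

theorem outd_mono (l : Y → A) (r : Y → B) (a b : Y → ℕ) {S T : Finset Y} (h : S ⊆ T) (e : Y) :
    outd l r a b S e ≤ outd l r a b T e :=
  Nat.add_le_add (card_le_card (filter_subset_filter _ h)) (card_le_card (filter_subset_filter _ h))

theorem outd_lt (l : Y → A) (r : Y → B) (a b : Y → ℕ) {S T : Finset Y} (h : S ⊆ T) (e f : Y)
    (hf : f ∈ T) (hf' : f ∉ S)
    (hfe : (l f = l e ∧ a f < a e) ∨ (r f = r e ∧ b f < b e)) :
    outd l r a b S e < outd l r a b T e := by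
  rcases hfe with hfe | hfe
  · refine Nat.add_lt_add_of_lt_of_le (card_lt_card ?_) (card_le_card (filter_subset_filter _ h))
    refine (Finset.ssubset_iff_of_subset (filter_subset_filter _ h)).2 ⟨f, ?_, ?_⟩
    · exact mem_filter.2 ⟨hf, hfe⟩
    · exact fun h1 => hf' (mem_filter.1 h1).1
  · refine Nat.add_lt_add_of_le_of_lt (card_le_card (filter_subset_filter _ h)) (card_lt_card ?_)
    refine (Finset.ssubset_iff_of_subset (filter_subset_filter _ h)).2 ⟨f, ?_, ?_⟩
    · exact mem_filter.2 ⟨hf, hfe⟩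
    · exact fun h1 => hf' (mem_filter.1 h1).1

/-- A stable matching. -/
theorem kernel (l : Y → A) (r : Y → B) (a b : Y → ℕ)
    (ha : ∀ e f, l e = l f → a e = a f → e = f) (hb : ∀ e f, r e = r f → b e = b f → e = f) :
    ∀ (n : ℕ) (S : Finset Y), S.card = n → ∃ K ⊆ S,
      (∀ e ∈ K, ∀ f ∈ K, (l e = l f ∨ r e = r f) → e = f) ∧
      ∀ e ∈ S, e ∉ K → ∃ f ∈ K, (l f = l e ∧ a f < a e) ∨ (r f = r e ∧ b f < b e) := by
  intro n
  induction n with
  | zero =>
    intro S hS
    rw [card_eq_zero] at hS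
    subst hS
    exact ⟨∅, subset_rfl, by simp, by simp⟩
  | succ n ih =>
    intro S hS
    set T : Finset Y := S.filter (fun e => ∀ f ∈ S, l f = l e → a e ≤ a f) with hT
    have hTS : T ⊆ S := filter_subset _ _
    have hTm : ∀ e, e ∈ T ↔ e ∈ S ∧ ∀ f ∈ S, l f = l e → a e ≤ a f := fun e => by simp [hT]
    by_cases hinj : ∀ e ∈ T, ∀ f ∈ T, r e = r f → e = f
    · refine ⟨T, hTS, ?_, ?_⟩
      · rintro e he f hf (h1 | h1)
        · exact ha e f h1 (le_antisymm (((hTm e).1 he).2 f ((hTm f).1 hf).1 h1.symm)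
            (((hTm f).1 hf).2 e ((hTm e).1 he).1 h1))
        · exact hinj e he f hf h1
      · intro e he heT
        have hne : (S.filter (fun f => l f = l e)).Nonempty := ⟨e, mem_filter.2 ⟨he, rfl⟩⟩
        obtain ⟨f, hf, hmin⟩ := exists_min_image _ a hne
        rw [mem_filter] at hf
        have hfT : f ∈ T := by
          rw [hTm]
          refine ⟨hf.1, fun g hg hgf => hmin g (mem_filter.2 ⟨hg, hgf.trans hf.2⟩)⟩
        refine ⟨f, hfT, Or.inl ⟨hf.2, ?_⟩⟩
        refine lt_of_le_of_ne (hmin e (mem_filter.2 ⟨he, rfl⟩)) (fun h => heT ?_)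
        rw [← ha f e hf.2 h]
        exact hfT
    · push Not at hinj
      have hex : ∃ e1 ∈ T, ∃ e2 ∈ T, r e1 = r e2 ∧ b e1 < b e2 := by
        obtain ⟨e, he, f, hf, h1, h2⟩ := hinj
        rcases lt_trichotomy (b e) (b f) with h | h | h
        · exact ⟨e, he, f, hf, h1, h⟩
        · exact absurd (hb e f h1 h) h2
        · exact ⟨f, hf, e, he, h1.symm, h⟩
      obtain ⟨e1, he1, e2, he2, hr, hlt⟩ := hex
      have he2S := hTS he2
      obtain ⟨K, hK, hK1, hK2⟩ := ih (S.erase e2) (by rw [card_erase_of_mem he2S, hS]; rfl)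
      refine ⟨K, hK.trans (erase_subset _ _), hK1, ?_⟩
      intro e he heK
      by_cases h : e = e2
      · subst h
        have hne : e1 ≠ e := fun h => by rw [h] at hlt; exact lt_irrefl _ hlt
        by_cases h1 : e1 ∈ K
        · exact ⟨e1, h1, Or.inr ⟨hr, hlt⟩⟩
        · obtain ⟨f, hf, h3⟩ := hK2 e1 (mem_erase.2 ⟨hne, hTS he1⟩) h1
          refine ⟨f, hf, Or.inr ?_⟩
          rcases h3 with h3 | h3
          · exact absurd (((hTm e1).1 he1).2 f (erase_subset _ _ (hK hf)) h3.1) (not_le.2 h3.2)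
          · exact ⟨h3.1.trans hr, h3.2.trans hlt⟩
      · exact hK2 e (mem_erase.2 ⟨h, he⟩) heK

/-- Galvin's method. -/
theorem galvin [Nonempty κ] (l : Y → A) (r : Y → B) (a b : Y → ℕ)
    (ha : ∀ e f, l e = l f → a e = a f → e = f) (hb : ∀ e f, r e = r f → b e = b f → e = f) :
    ∀ (n : ℕ) (S : Finset Y) (L : Y → Finset κ), S.card = n →
      (∀ e ∈ S, outd l r a b S e < (L e).card) →
      ∃ c : Y → κ, (∀ e ∈ S, c e ∈ L e) ∧
        ∀ e ∈ S, ∀ f ∈ S, e ≠ f → (l e = l f ∨ r e = r f) → c e ≠ c f := by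
  intro n
  induction n using Nat.strong_induction_on with
  | _ n ih =>
    intro S L hS hL
    by_cases hem : S = ∅
    · subst hem
      exact ⟨fun _ => Classical.arbitrary κ, by simp, by simp⟩
    obtain ⟨e0, he0⟩ := nonempty_iff_ne_empty.2 hem
    obtain ⟨x, hx⟩ := card_pos.1 (lt_of_le_of_lt (Nat.zero_le _) (hL e0 he0))
    obtain ⟨K, hK, hK1, hK2⟩ := kernel l r a b ha hb _ (S.filter (fun e => x ∈ L e)) rfl
    have hKS : K ⊆ S := hK.trans (filter_subset _ _)
    have hKne : K.Nonempty := by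
      by_cases h : e0 ∈ K
      · exact ⟨e0, h⟩
      · obtain ⟨f, hf, _⟩ := hK2 e0 (mem_filter.2 ⟨he0, hx⟩) h
        exact ⟨f, hf⟩
    have hlt : (S \ K).card < n := by
      rw [← hS]
      refine card_lt_card ?_
      obtain ⟨f, hf⟩ := hKne
      exact (Finset.ssubset_iff_of_subset sdiff_subset).2 ⟨f, hKS hf, fun h => (mem_sdiff.1 h).2 hf⟩
    obtain ⟨c, hc1, hc2⟩ := ih _ hlt (S \ K) (fun e => (L e).erase x) rfl (by
      intro e he
      obtain ⟨heS, heK⟩ := mem_sdiff.1 he
      by_cases hxe : x ∈ L e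
      · obtain ⟨f, hf, hfe⟩ := hK2 e (mem_filter.2 ⟨heS, hxe⟩) heK
        have h1 := outd_lt l r a b (sdiff_subset : S \ K ⊆ S) e f (hKS hf)
          (fun h => (mem_sdiff.1 h).2 hf) hfe
        have h2 := hL e heS
        have h3 := card_erase_of_mem hxe
        show _ < ((L e).erase x).card
        omega
      · have h1 := outd_mono l r a b (sdiff_subset : S \ K ⊆ S) e
        have h2 := hL e heS
        show _ < ((L e).erase x).card
        rw [erase_eq_of_notMem hxe]
        omega)
    refine ⟨fun e => if e ∈ K then x else c e, ?_, ?_⟩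
    · intro e he
      by_cases h : e ∈ K
      · simp only [h, if_true]
        exact (mem_filter.1 (hK h)).2
      · simp only [h, if_false]
        exact mem_of_mem_erase (hc1 e (mem_sdiff.2 ⟨he, h⟩))
    · intro e he f hf hef hlr
      by_cases h1 : e ∈ K <;> by_cases h2 : f ∈ K
      · exact absurd (hK1 e h1 f h2 hlr) hef
      · simp only [h1, h2, if_true, if_false]
        exact fun h => (mem_erase.1 (hc1 f (mem_sdiff.2 ⟨hf, h2⟩))).1 h.symm
      · simp only [h1, h2, if_true, if_false]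
        exact fun h => (mem_erase.1 (hc1 e (mem_sdiff.2 ⟨he, h1⟩))).1 h
      · simp only [h1, h2, if_false]
        exact hc2 e (mem_sdiff.2 ⟨he, h1⟩) f (mem_sdiff.2 ⟨hf, h2⟩) hef hlr

end Galvin

section Bip

/-- Two involutions without fixed points. -/
theorem bip_free {W : Type*} [Fintype W] (s t : W → W) (hs : ∀ u, s (s u) = u)
    (ht : ∀ u, t (t u) = u) (hs' : ∀ u, s u ≠ u) (ht' : ∀ u, t u ≠ u) :
    ∃ τ : W → Bool, (∀ u, τ (s u) ≠ τ u) ∧ (∀ u, τ (t u) ≠ τ u) := by
  let S : Equiv.Perm W := ⟨s, s, hs, hs⟩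
  let T : Equiv.Perm W := ⟨t, t, ht, ht⟩
  let R : Equiv.Perm W := S * T
  have hSS : S * S = 1 := Equiv.ext fun u => hs u
  have hTT : T * T = 1 := Equiv.ext fun u => ht u
  have hSi : S⁻¹ = S := inv_eq_of_mul_eq_one_left hSS
  have hTi : T⁻¹ = T := inv_eq_of_mul_eq_one_left hTT
  have hST : T = S * R := by
    show T = S * (S * T)
    rw [← mul_assoc, hSS, one_mul]
  have hconj : S * R * S⁻¹ = R⁻¹ := by
    show S * (S * T) * S⁻¹ = (S * T)⁻¹
    rw [mul_inv_rev, hTi, ← mul_assoc, hSS, one_mul]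
  have hpow : ∀ k : ℤ, S * R ^ k = R ^ (-k) * S := by
    intro k
    have := congrArg (· ^ k) hconj
    simp only [conj_zpow, inv_zpow'] at this
    rw [mul_inv_eq_iff_eq_mul] at this
    exact this
  have hpow' : ∀ (k : ℤ) (u : W), s ((R ^ k) u) = (R ^ (-k)) (s u) := fun k u =>
    congrArg (fun g : Equiv.Perm W => g u) (hpow k)
  -- `s u` is not in the cycle of `u`
  have key : ∀ u, ¬ R.SameCycle u (s u) := by
    rintro u ⟨k, hk⟩
    rcases Int.even_or_odd' k with ⟨m, rfl | rfl⟩
    · refine hs' ((R ^ m) u) ?_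
      rw [hpow', ← hk, ← Equiv.Perm.mul_apply, ← zpow_add]
      congr 2
      ring
    · refine ht' ((R ^ m) u) ?_
      have h1 : t ((R ^ m) u) = s (R ((R ^ m) u)) := by
        have := congrArg (fun g : Equiv.Perm W => g ((R ^ m) u)) hST
        exact this
      have h2 : R ((R ^ m) u) = (R ^ (m + 1)) u := by
        rw [add_comm, zpow_add, zpow_one]
        rfl
      rw [h1, h2, hpow', ← hk, ← Equiv.Perm.mul_apply, ← zpow_add]
      congr 2
      ring
  have hsc : ∀ u v, R.SameCycle u v → R.SameCycle (s u) (s v) := by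
    rintro u v ⟨k, rfl⟩
    exact ⟨-k, by rw [hpow']⟩
  let Q := Quotient (Equiv.Perm.SameCycle.setoid R)
  have : Fintype Q := Fintype.ofFinite Q
  let q : W → Fin (Fintype.card Q) := fun u => Fintype.equivFin Q (Quotient.mk _ u)
  have hq : ∀ u v, q u = q v ↔ R.SameCycle u v := by
    intro u v
    constructor
    · intro h
      exact Quotient.exact ((Fintype.equivFin Q).injective h)
    · intro h
      exact congrArg (Fintype.equivFin Q) (Quotient.sound (s := Equiv.Perm.SameCycle.setoid R) h)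
  refine ⟨fun u => decide (q u < q (s u)), ?_, ?_⟩
  · intro u
    have hne : q u ≠ q (s u) := fun h => key u ((hq _ _).1 h)
    simp only [hs]
    rcases lt_or_gt_of_ne hne with h | h
    · simp [h, not_lt.2 h.le]
    · simp [h, not_lt.2 h.le]
  · intro u
    have hne : q u ≠ q (s u) := fun h => key u ((hq _ _).1 h)
    have h1 : q (t u) = q (s u) := by
      rw [hq]
      have h2 : t u = s (R u) := congrArg (fun g : Equiv.Perm W => g u) hST
      rw [h2]
      refine hsc _ _ ?_
      exact ⟨-1, by simp⟩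
    have h2 : q (s (t u)) = q u := by
      rw [hq]
      have h3 : s (t u) = R u := rfl
      rw [h3]
      exact ⟨-1, by simp⟩
    simp only [h1, h2]
    rcases lt_or_gt_of_ne hne with h | h
    · simp [h, not_lt.2 h.le]
    · simp [h, not_lt.2 h.le]

/-- Two involutions. -/
theorem bip {V : Type*} [Fintype V] (s t : V → V) (hs : ∀ u, s (s u) = u)
    (ht : ∀ u, t (t u) = u) :
    ∃ τ : V → Bool, (∀ u, s u ≠ u → τ (s u) ≠ τ u) ∧ (∀ u, t u ≠ u → τ (t u) ≠ τ u) := by
  let f : (V → V) → V × Bool → V × Bool := fun g p =>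
    if g p.1 = p.1 then (p.1, !p.2) else (g p.1, p.2)
  have h1 : ∀ g : V → V, (∀ u, g (g u) = u) → ∀ p, f g (f g p) = p := by
    rintro g hg ⟨u, i⟩
    by_cases h : g u = u
    · simp [f, h]
    · have h' : ¬ u = g u := fun h2 => h h2.symm
      simp only [f, h, if_false, h', hg]
  have h2 : ∀ g : V → V, ∀ p, f g p ≠ p := by
    rintro g ⟨u, i⟩
    by_cases h : g u = u
    · simp [f, h]
    · simp [f, h]
  obtain ⟨τ, hτ1, hτ2⟩ := bip_free (f s) (f t) (h1 s hs) (h1 t ht) (h2 s) (h2 t)
  refine ⟨fun u => τ (u, false), ?_, ?_⟩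
  · intro u hu
    have := hτ1 (u, false)
    simpa [f, hu] using this
  · intro u hu
    have := hτ2 (u, false)
    simpa [f, hu] using this

end Bip

end Pool.TF
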