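import Pool.Agent.Helper9.TF.PartB
import Pool.Agent.Helper3.TCM.Viz
import Pool.Agent.Helper83.TC.Total

/-!
Total colourings with `Δ + 3` colours: five classes of heavy vertices, or six classes and an edge
colouring with `Δ` colours.
-/

set_option autoImplicit false

namespace Pool.TF

open Pool.TC Pool.TCM Finset
open scoped Classical

/-- Adding the light vertices greedily. -/
theorem light {V : Type*} [Fintype V] (G : SimpleGraph V) {d : ℕ} (S : Finset V)
    (hS : ∀ u, u ∉ S → 2 * (univ.filter (fun v => G.Adj u v)).card ≤ d + 2)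
    (c0 : V → Fin (d + 3)) (e : Sym2 V → Fin (d + 3))
    (h1 : ∀ u ∈ S, ∀ v ∈ S, G.Adj u v → c0 u ≠ c0 v)
    (h2 : ∀ u v w, G.Adj u v → G.Adj u w → v ≠ w → e s(u, v) ≠ e s(u, w))
    (h3 : ∀ u ∈ S, ∀ v, G.Adj u v → e s(u, v) ≠ c0 u) :
    ∃ c : V → Fin (d + 3), IsTotalColouring G c e := by
  have key : ∀ T : Finset V, (∀ u ∈ T, u ∉ S) → ∃ c : V → Fin (d + 3),
      (∀ u ∈ S ∪ T, ∀ v ∈ S ∪ T, G.Adj u v → c u ≠ c v) ∧
      (∀ u ∈ S ∪ T, ∀ v, G.Adj u v → e s(u, v) ≠ c u) := by
    intro T
    induction T using Finset.induction_on with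
    | empty =>
      intro _
      refine ⟨c0, ?_, ?_⟩
      · intro u hu v hv huv
        rw [union_empty] at hu hv
        exact h1 u hu v hv huv
      · intro u hu v huv
        rw [union_empty] at hu
        exact h3 u hu v huv
    | insert w T hwT ih =>
      intro hT
      obtain ⟨c, hc1, hc2⟩ := ih (fun u hu => hT u (mem_insert_of_mem hu))
      have hwS := hT w (mem_insert_self _ _)
      set N : Finset V := univ.filter (fun v => G.Adj w v) with hN
      have hNm : ∀ v, v ∈ N ↔ G.Adj w v := fun v => by simp [hN]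
      have hlight : 2 * N.card ≤ d + 2 := hS w hwS
      obtain ⟨a, ha⟩ : ∃ a : Fin (d + 3), a ∉ N.image c ∪ N.image (fun v => e s(w, v)) := by
        by_contra hcon
        push Not at hcon
        have h4 : (univ : Finset (Fin (d + 3))).card ≤
            (N.image c ∪ N.image (fun v => e s(w, v))).card :=
          card_le_card (fun a _ => hcon a)
        rw [card_univ, Fintype.card_fin] at h4
        have h5 := card_union_le (N.image c) (N.image (fun v => e s(w, v)))
        have h6 : (N.image c).card ≤ N.card := card_image_le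
        have h7 : (N.image (fun v => e s(w, v))).card ≤ N.card := card_image_le
        omega
      rw [mem_union, not_or, mem_image, mem_image] at ha
      obtain ⟨ha1, ha2⟩ := ha
      push Not at ha1 ha2
      refine ⟨Function.update c w a, ?_, ?_⟩
      · intro u hu v hv huv
        by_cases huw : u = w
        · subst huw
          rw [Function.update_self, Function.update_of_ne huv.ne.symm]
          exact fun h => ha1 v ((hNm v).2 huv) h.symm
        by_cases hvw : v = w
        · subst hvw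
          rw [Function.update_self, Function.update_of_ne huw]
          exact ha1 u ((hNm u).2 huv.symm)
        rw [Function.update_of_ne huw, Function.update_of_ne hvw]
        refine hc1 u ?_ v ?_ huv
        · simpa [huw] using hu
        · simpa [hvw] using hv
      · intro u hu v huv
        by_cases huw : u = w
        · subst huw
          rw [Function.update_self]
          exact ha2 v ((hNm v).2 huv)
        rw [Function.update_of_ne huw]
        exact hc2 u (by simpa [huw] using hu) v huv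
  obtain ⟨c, hc1, hc2⟩ := key (univ \ S) (fun u hu => (mem_sdiff.1 hu).2)
  have hall : ∀ u, u ∈ S ∪ (univ \ S) := fun u => by
    rw [union_sdiff_of_subset (subset_univ _)]; exact mem_univ _
  exact ⟨c, fun u v huv => hc1 u (hall u) v (hall v) huv, h2, fun u v huv => hc2 u (hall u) v huv⟩

/-- Changing the names of the colours. -/
def ren {κ κ' V : Type*} (E : EC κ V) (ψ : κ' ≃ κ) : EC κ' V where
  N a := E.N (ψ a)
  inv _ _ := E.inv _ _
  uniq _ _ _ h1 h2 := ψ.injective (E.uniq _ _ _ h1 h2)

/-- The involutions of a proper edge colouring. -/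
theorem ofEdge {V κ : Type*} (G : SimpleGraph V) (f : Sym2 V → κ)
    (hf : ∀ u v w, G.Adj u v → G.Adj u w → v ≠ w → f s(u, v) ≠ f s(u, w)) :
    ∃ E : EC κ V, (∀ u v, G.Adj u v → ∃ a, E.N a u = v) ∧
      (∀ a u, E.N a u ≠ u → G.Adj u (E.N a u)) := by
  let N : κ → V → V := fun a u => if h : ∃ v, G.Adj u v ∧ f s(u, v) = a then h.choose else u
  have h1 : ∀ u v, G.Adj u v → N (f s(u, v)) u = v := by
    intro u v huv
    have h : ∃ w, G.Adj u w ∧ f s(u, w) = f s(u, v) := ⟨v, huv, rfl⟩
    have h2 : N (f s(u, v)) u = h.choose := dif_pos h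
    rw [h2]
    by_contra hne
    exact hf u _ v h.choose_spec.1 huv hne h.choose_spec.2
  have h2 : ∀ a u, N a u ≠ u → G.Adj u (N a u) ∧ f s(u, N a u) = a := by
    intro a u hne
    by_cases h : ∃ v, G.Adj u v ∧ f s(u, v) = a
    · have h3 : N a u = h.choose := dif_pos h
      rw [h3]
      exact h.choose_spec
    · exact absurd (dif_neg h) hne
  refine ⟨⟨N, ?_, ?_⟩, fun u v huv => ⟨_, h1 u v huv⟩, fun a u h => (h2 a u h).1⟩
  · intro a u
    by_cases h : N a u = u
    · rw [h, h]
    · obtain ⟨h3, h4⟩ := h2 a u h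
      have h5 := h1 (N a u) u h3.symm
      rw [Sym2.eq_swap, h4] at h5
      exact h5
  · intro a b u h3 h4
    obtain ⟨_, h6⟩ := h2 a u h4
    rw [h3] at h4
    obtain ⟨_, h8⟩ := h2 b u h4
    rw [← h6, ← h8, h3]

theorem main_zero {V : Type} [Fintype V] (G : SimpleGraph V) (D : ℕ)
    (hD : ∀ u, (univ.filter (fun v => G.Adj u v)).card ≤ D) (S : Finset V)
    (hS : ∀ u, u ∉ S → 2 * (univ.filter (fun v => G.Adj u v)).card ≤ D + 2)
    (h : (∃ φ : V → Fin 5, ∀ u ∈ S, ∀ v ∈ S, G.Adj u v → φ u ≠ φ v) ∨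
      ((∃ φ : V → Fin 6, ∀ u ∈ S, ∀ v ∈ S, G.Adj u v → φ u ≠ φ v) ∧
        ∃ f : Sym2 V → Fin D, ∀ u v w, G.Adj u v → G.Adj u w → v ≠ w → f s(u, v) ≠ f s(u, w))) :
    ∃ (c : V → Fin (D + 3)) (e : Sym2 V → Fin (D + 3)), IsTotalColouring G c e := by
  by_cases hD3 : 3 ≤ D
  swap
  · refine total_colouring G hD ?_
    have : univ.filter (fun u => D + 2 < 2 * (univ.filter (fun v => G.Adj u v)).card) = ∅ := by
      rw [filter_eq_empty_iff]
      intro u _ h
      have := hD u
      omega
    rw [this]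
    simp
  rcases h with ⟨φ, hφ⟩ | ⟨⟨φ, hφ⟩, f, hf⟩
  · obtain ⟨E, hcov, hsub⟩ := thm_Viz V (Bool ⊕ Fin (D - 1)) G D
      (by
        intro u
        have h := hD u
        unfold nb
        convert h)
      (by
        simp only [Fintype.card_sum, Fintype.card_bool, Fintype.card_fin]
        omega)
    have hmiss : ∀ u, ∃ a, E.N a u = u := by
      intro u
      by_contra hcon
      push Not at hcon
      have h1 : (univ : Finset (Bool ⊕ Fin (D - 1))).card ≤
          (univ.filter (fun v => G.Adj u v)).card := by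
        refine card_le_card_of_injOn (fun a => E.N a u) ?_ ?_
        · intro a _
          exact mem_coe.2 (mem_filter.2 ⟨mem_univ _, hsub a u (hcon a)⟩)
        · intro a _ b _ hab
          exact E.uniq a b u hab (hcon a)
      have h2 := hD u
      simp only [card_univ, Fintype.card_sum, Fintype.card_bool, Fintype.card_fin] at h1
      omega
    obtain ⟨c, e, k1, k2, k3⟩ := part_a G E hcov hsub hmiss ⟨0, by omega⟩ (S : Set V) φ
      (fun u hu v hv => hφ u (mem_coe.1 hu) v (mem_coe.1 hv))
    have hcol : Fintype.card (Fin 4 ⊕ Fin (D - 1)) = D + 3 := by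
      simp only [Fintype.card_sum, Fintype.card_fin]
      omega
    let ψ : Fin 4 ⊕ Fin (D - 1) ≃ Fin (D + 3) := Fintype.equivFinOfCardEq hcol
    obtain ⟨c', hc'⟩ := light G (d := D) S hS (fun u => ψ (c u)) (fun x => ψ (e x))
      (fun u hu v hv huv h => k1 u (mem_coe.2 hu) v (mem_coe.2 hv) huv (ψ.injective h))
      (fun u v w h1 h2 h3 h => k2 u v w h1 h2 h3 (ψ.injective h))
      (fun u hu v h1 h => k3 u (mem_coe.2 hu) v h1 (ψ.injective h))
    exact ⟨c', _, hc'⟩
  · obtain ⟨E0, hcov0, hsub0⟩ := ofEdge G f hf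
    have hcard : Fintype.card (Bool ⊕ Fin (D - 2)) = D := by
      simp only [Fintype.card_sum, Fintype.card_bool, Fintype.card_fin]
      omega
    let χ : Bool ⊕ Fin (D - 2) ≃ Fin D := Fintype.equivFinOfCardEq hcard
    let E : EC (Bool ⊕ Fin (D - 2)) V := ren E0 χ
    have hcov : ∀ u v, G.Adj u v → ∃ a, E.N a u = v := by
      intro u v huv
      obtain ⟨a, ha⟩ := hcov0 u v huv
      refine ⟨χ.symm a, ?_⟩
      show E0.N (χ (χ.symm a)) u = v
      rw [χ.apply_symm_apply, ha]
    have hsub : ∀ a u, E.N a u ≠ u → G.Adj u (E.N a u) := fun a u h => hsub0 _ _ h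
    obtain ⟨c, e, k1, k2, k3⟩ := part_b G E hcov hsub ⟨0, by omega⟩ (S : Set V) φ
      (fun u hu v hv => hφ u (mem_coe.1 hu) v (mem_coe.1 hv))
    have hcol : Fintype.card (Fin 5 ⊕ Fin (D - 2)) = D + 3 := by
      simp only [Fintype.card_sum, Fintype.card_fin]
      omega
    let ψ : Fin 5 ⊕ Fin (D - 2) ≃ Fin (D + 3) := Fintype.equivFinOfCardEq hcol
    obtain ⟨c', hc'⟩ := light G (d := D) S hS (fun u => ψ (c u)) (fun x => ψ (e x))
      (fun u hu v hv huv h => k1 u (mem_coe.2 hu) v (mem_coe.2 hv) huv (ψ.injective h))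
      (fun u v w h1 h2 h3 h => k2 u v w h1 h2 h3 (ψ.injective h))
      (fun u hu v h1 h => k3 u (mem_coe.2 hu) v h1 (ψ.injective h))
    exact ⟨c', _, hc'⟩

theorem main_theorem {V : Type*} [Fintype V] (G : SimpleGraph V) (D : ℕ)
    (hD : ∀ u, (univ.filter (fun v => G.Adj u v)).card ≤ D) (S : Finset V)
    (hS : ∀ u, u ∉ S → 2 * (univ.filter (fun v => G.Adj u v)).card ≤ D + 2)
    (h : (∃ φ : V → Fin 5, ∀ u ∈ S, ∀ v ∈ S, G.Adj u v → φ u ≠ φ v) ∨
      ((∃ φ : V → Fin 6, ∀ u ∈ S, ∀ v ∈ S, G.Adj u v → φ u ≠ φ v) ∧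
        ∃ f : Sym2 V → Fin D, ∀ u v w, G.Adj u v → G.Adj u w → v ≠ w → f s(u, v) ≠ f s(u, w))) :
    ∃ (c : V → Fin (D + 3)) (e : Sym2 V → Fin (D + 3)), IsTotalColouring G c e := by
  let φ : V ≃ Fin (Fintype.card V) := Fintype.equivFin V
  let G' : SimpleGraph (Fin (Fintype.card V)) := G.comap φ.symm
  have hadj : ∀ a b, G'.Adj a b ↔ G.Adj (φ.symm a) (φ.symm b) := fun a b => Iff.rfl
  have hdeg : ∀ a, (univ.filter (fun b => G'.Adj a b)).card =
      (univ.filter (fun v => G.Adj (φ.symm a) v)).card := by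
    intro a
    refine card_bij (fun b _ => φ.symm b) ?_ ?_ ?_
    · intro b hb
      simpa [hadj] using hb
    · intro b _ b' _ h
      exact φ.symm.injective h
    · intro v hv
      refine ⟨φ v, ?_, by simp⟩
      simpa [hadj] using hv
  obtain ⟨c, e, hce⟩ := main_zero G' D
    (by
      intro a
      have h := hD (φ.symm a)
      rw [← hdeg a] at h
      convert h) (univ.filter (fun a => φ.symm a ∈ S))
    (by
      intro a ha
      have h1 : φ.symm a ∉ S := fun h2 => ha (by simpa using h2)
      have h2 := hS _ h1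
      rw [← hdeg a] at h2
      convert h2)
    (by
      rcases h with ⟨C, hC⟩ | ⟨⟨C, hC⟩, f, hf⟩
      · refine Or.inl ⟨fun a => C (φ.symm a), fun u hu v hv huv => hC _ ?_ _ ?_ huv⟩
        · simpa using hu
        · simpa using hv
      · refine Or.inr ⟨⟨fun a => C (φ.symm a), fun u hu v hv huv => hC _ ?_ _ ?_ huv⟩,
          fun x => f (x.map φ.symm), ?_⟩
        · simpa using hu
        · simpa using hv
        · intro u v w h1 h2 h3
          simp only [Sym2.map_mk]
          exact hf _ _ _ h1 h2 (fun h => h3 (φ.symm.injective h)))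
  refine ⟨fun v => c (φ v), fun x => e (x.map φ), ?_, ?_, ?_⟩
  · intro u v huv
    exact hce.vertex_vertex (φ u) (φ v) (by simpa [hadj] using huv)
  · intro u v w h1 h2 h3
    simp only [Sym2.map_mk]
    exact hce.edge_edge (φ u) (φ v) (φ w) (by simpa [hadj] using h1) (by simpa [hadj] using h2)
      (fun h => h3 (φ.injective h))
  · intro u v huv
    simp only [Sym2.map_mk]
    exact hce.vertex_edge (φ u) (φ v) (by simpa [hadj] using huv)

end Pool.TF
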