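import Pool.Agent.Helper9.TF.Asm

/-!
Part (a): five classes of vertices and an edge colouring missing a colour at every vertex.
-/

set_option autoImplicit false

namespace Pool.TF

open Pool.TC Finset
open scoped Classical

theorem card_fib {Y A : Type*} (l : Y → A) (a : Y → ℕ)
    (ha : ∀ e f, l e = l f → a e = a f → e = f) (S : Finset Y) (x : A) (n : ℕ) :
    (S.filter (fun f => l f = x ∧ a f < n)).card ≤ n := by
  have h : (S.filter (fun f => l f = x ∧ a f < n)).card ≤ (range n).card := by
    refine card_le_card_of_injOn a ?_ ?_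
    · intro f hf
      have := (mem_filter.1 (mem_coe.1 hf)).2.2
      exact mem_coe.2 (mem_range.2 this)
    · intro e he f hf h
      have h1 := (mem_filter.1 (mem_coe.1 he)).2.1
      have h2 := (mem_filter.1 (mem_coe.1 hf)).2.1
      exact ha e f (h1.trans h2.symm) h
  simpa using h

theorem outd_le {Y A B : Type*} (l : Y → A) (r : Y → B) (a b : Y → ℕ)
    (ha : ∀ e f, l e = l f → a e = a f → e = f) (hb : ∀ e f, r e = r f → b e = b f → e = f)
    (S : Finset Y) (e : Y) : outd l r a b S e ≤ a e + b e :=
  Nat.add_le_add (card_fib l a ha S _ _) (card_fib r b hb S _ _)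

theorem card_inter_ge {κ : Type*} [Fintype κ] [DecidableEq κ] (s t : Finset κ) :
    s.card + t.card ≤ (s ∩ t).card + Fintype.card κ := by
  have h1 := card_union_add_card_inter s t
  have h2 : (s ∪ t).card ≤ Fintype.card κ := card_le_univ _
  omega

theorem part_a {V β : Type*} [Fintype V] (G : SimpleGraph V) (E : EC (Bool ⊕ β) V)
    (hcov : ∀ u v, G.Adj u v → ∃ a, E.N a u = v) (hsub : ∀ a u, E.N a u ≠ u → G.Adj u (E.N a u))
    (hmiss : ∀ u, ∃ a, E.N a u = u) (q0 : β) (S : Set V) (φ : V → Fin 5)
    (hφ : ∀ u ∈ S, ∀ v ∈ S, G.Adj u v → φ u ≠ φ v) :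
    ∃ (c : V → Fin 4 ⊕ β) (e : Sym2 V → Fin 4 ⊕ β),
      (∀ u ∈ S, ∀ v ∈ S, G.Adj u v → c u ≠ c v) ∧
      (∀ u v w, G.Adj u v → G.Adj u w → v ≠ w → e s(u, v) ≠ e s(u, w)) ∧
      (∀ u ∈ S, ∀ v, G.Adj u v → e s(u, v) ≠ c u) := by
  -- the colours of the vertices
  let c : V → Fin 4 ⊕ β := fun v => if h : (φ v).val < 4 then Sum.inl ⟨(φ v).val, h⟩ else
    if h : ∃ j, E.N (Sum.inr j) v = v then Sum.inr h.choose else Sum.inr q0
  let B : V → Prop := fun v => v ∈ S ∧ ¬ (φ v).val < 4 ∧ ¬ ∃ j, E.N (Sum.inr j) v = v
  have hB1 : ∀ b, B b → ∃ a : Bool, E.N (Sum.inl a) b = b := by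
    rintro b ⟨_, _, h⟩
    obtain ⟨a | j, ha⟩ := hmiss b
    · exact ⟨a, ha⟩
    · exact absurd ⟨j, ha⟩ h
  have hcl : ∀ v p, c v = Sum.inl p → (φ v).val < 4 ∧ p.val = (φ v).val := by
    intro v p h
    by_cases h1 : (φ v).val < 4
    · refine ⟨h1, ?_⟩
      have h2 : c v = Sum.inl ⟨(φ v).val, h1⟩ := dif_pos h1
      rw [h2] at h
      rw [← Sum.inl_injective h]
    · by_cases h2 : ∃ j, E.N (Sum.inr j) v = v
      · have h3 : c v = Sum.inr h2.choose := (dif_neg h1).trans (dif_pos h2)
        rw [h3] at h
        cases h
      · have h3 : c v = Sum.inr q0 := (dif_neg h1).trans (dif_neg h2)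
        rw [h3] at h
        cases h
  have hcr : ∀ v j, c v = Sum.inr j → ¬ (φ v).val < 4 ∧
      (E.N (Sum.inr j) v = v ∨ (¬ (∃ j, E.N (Sum.inr j) v = v) ∧ j = q0)) := by
    intro v p h
    by_cases h1 : (φ v).val < 4
    · have h2 : c v = Sum.inl ⟨(φ v).val, h1⟩ := dif_pos h1
      rw [h2] at h
      cases h
    · refine ⟨h1, ?_⟩
      by_cases h2 : ∃ j, E.N (Sum.inr j) v = v
      · have h3 : c v = Sum.inr h2.choose := (dif_neg h1).trans (dif_pos h2)
        rw [h3] at h
        rw [← Sum.inr_injective h]
        exact Or.inl h2.choose_spec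
      · have h3 : c v = Sum.inr q0 := (dif_neg h1).trans (dif_neg h2)
        rw [h3] at h
        exact Or.inr ⟨h2, (Sum.inr_injective h).symm⟩
  have h45 : ∀ v, ¬ (φ v).val < 4 → (φ v).val = 4 := by
    intro v h
    have := (φ v).isLt
    omega
  have hBB : ∀ u v, B u → B v → ¬ G.Adj u v := by
    intro u v hu hv huv
    exact hφ u hu.1 v hv.1 huv (Fin.ext ((h45 u hu.2.1).trans (h45 v hv.2.1).symm))
  -- the available colours
  let A : V → Finset (Fin 4) := fun v =>
    if h : v ∈ S ∧ (φ v).val < 4 then univ.erase ⟨(φ v).val, h.2⟩ else univ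
  have hA3 : ∀ v, 3 ≤ (A v).card := by
    intro v
    by_cases h : v ∈ S ∧ (φ v).val < 4
    · have h1 : A v = univ.erase ⟨(φ v).val, h.2⟩ := dif_pos h
      rw [h1, card_erase_of_mem (mem_univ _)]
      simp
    · have h1 : A v = univ := dif_neg h
      rw [h1]
      simp
  have hA2 : ∀ u v, 2 ≤ (A u ∩ A v).card := by
    intro u v
    have h1 := card_inter_ge (A u) (A v)
    have h2 := hA3 u
    have h3 := hA3 v
    rw [Fintype.card_fin] at h1
    omega
  have hAp : ∀ v ∈ S, ∀ p, c v = Sum.inl p → p ∉ A v := by
    intro v hv p h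
    obtain ⟨h1, h2⟩ := hcl v p h
    have h3 : A v = univ.erase ⟨(φ v).val, h1⟩ := dif_pos ⟨hv, h1⟩
    rw [h3, Fin.ext h2 (b := ⟨(φ v).val, h1⟩)]
    exact notMem_erase _ _
  -- the bipartition
  obtain ⟨τ, hτ1, hτ2⟩ := bip (E.N (Sum.inl false)) (E.N (Sum.inl true)) (E.inv _) (E.inv _)
  have hτ : ∀ (a : Bool) u, E.N (Sum.inl a) u ≠ u → τ (E.N (Sum.inl a) u) ≠ τ u := by
    intro a u hu
    cases a
    · exact hτ1 u hu
    · exact hτ2 u hu
  -- stage 1
  let S1 : Finset (Bool × V) := univ.filter (fun p => τ p.2 = false ∧
    E.N (Sum.inl p.1) p.2 ≠ p.2 ∧ ¬ B p.2 ∧ ¬ B (E.N (Sum.inl p.1) p.2))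
  have hS1 : ∀ a u, (a, u) ∈ S1 ↔ (τ u = false ∧ E.N (Sum.inl a) u ≠ u ∧ ¬ B u ∧
      ¬ B (E.N (Sum.inl a) u)) := fun a u => by simp [S1]
  obtain ⟨c1, hc1, hc1'⟩ := galvin (κ := Fin 4) (fun p : Bool × V => p.2)
    (fun p : Bool × V => E.N (Sum.inl p.1) p.2) (fun p => if p.1 then 1 else 0)
    (fun p => if p.1 then 0 else 1)
    (by
      rintro ⟨a, u⟩ ⟨a', u'⟩ h1 h2
      simp only at h1 h2
      subst h1
      cases a <;> cases a' <;> simp_all)
    (by
      rintro ⟨a, u⟩ ⟨a', u'⟩ h1 h2
      simp only at h1 h2
      have h3 : a = a' := by cases a <;> cases a' <;> simp_all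
      subst h3
      have h4 := congrArg (E.N (Sum.inl a)) h1
      rw [E.inv, E.inv] at h4
      rw [h4])
    _ S1 (fun p => A p.2 ∩ A (E.N (Sum.inl p.1) p.2)) rfl
    (by
      rintro ⟨a, u⟩ he
      refine lt_of_le_of_lt (outd_le _ _ _ _ ?_ ?_ _ _) (lt_of_lt_of_le ?_ (hA2 _ _))
      · rintro ⟨a, u⟩ ⟨a', u'⟩ h1 h2
        simp only at h1 h2
        subst h1
        cases a <;> cases a' <;> simp_all
      · rintro ⟨a, u⟩ ⟨a', u'⟩ h1 h2
        simp only at h1 h2
        have h3 : a = a' := by cases a <;> cases a' <;> simp_all
        subst h3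
        have h4 := congrArg (E.N (Sum.inl a)) h1
        rw [E.inv, E.inv] at h4
        rw [h4]
      · cases a <;> simp)
  let g1 : Bool → V → Fin 4 := fun a u => if τ u = true then c1 (a, E.N (Sum.inl a) u) else c1 (a, u)
  have hg1s : ∀ a u, g1 a (E.N (Sum.inl a) u) = g1 a u := by
    intro a u
    by_cases h : E.N (Sum.inl a) u = u
    · rw [h]
    · have h1 := hτ a u h
      by_cases h2 : τ u = true
      · have h3 : ¬ τ (E.N (Sum.inl a) u) = true := fun h3 => h1 (h3.trans h2.symm)
        simp only [g1, h2, h3, if_true]
        simp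
      · have h3 : τ (E.N (Sum.inl a) u) = true := by
          cases h4 : τ (E.N (Sum.inl a) u)
          · exact absurd (h4.trans (Bool.eq_false_of_not_eq_true h2).symm) h1
          · rfl
        simp only [g1, h3, if_true, E.inv, h2]
        simp
  -- the edge of class `a` at `u` is in stage 1
  let V1 : Bool → V → Prop := fun a u => E.N (Sum.inl a) u ≠ u ∧ ¬ B u ∧ ¬ B (E.N (Sum.inl a) u)
  have hmem : ∀ a u, V1 a u → (τ u = true → (a, E.N (Sum.inl a) u) ∈ S1) ∧
      (¬ τ u = true → (a, u) ∈ S1) := by
    rintro a u ⟨h1, h2, h3⟩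
    refine ⟨fun h => ?_, fun h => ?_⟩
    · rw [hS1, E.inv]
      refine ⟨?_, fun h4 => h1 h4.symm, h3, h2⟩
      have h5 := hτ a u h1
      cases h4 : τ (E.N (Sum.inl a) u)
      · rfl
      · exact absurd (h4.trans h.symm) h5
    · rw [hS1]
      exact ⟨Bool.eq_false_of_not_eq_true h, h1, h2, h3⟩
  have hg1A : ∀ a u, V1 a u → g1 a u ∈ A u := by
    intro a u h
    obtain ⟨h1, h2⟩ := hmem a u h
    by_cases h3 : τ u = true
    · have h4 := hc1 _ (h1 h3)
      simp only [g1, h3, if_true]
      have h5 := (mem_inter.1 h4).2
      simpa [E.inv] using h5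
    · have h4 := hc1 _ (h2 h3)
      simp only [g1, h3]
      exact (mem_inter.1 h4).1
  have hg1d : ∀ a a' u, a ≠ a' → V1 a u → V1 a' u → g1 a u ≠ g1 a' u := by
    intro a a' u haa h h'
    obtain ⟨h1, h2⟩ := hmem a u h
    obtain ⟨k1, k2⟩ := hmem a' u h'
    by_cases h3 : τ u = true
    · simp only [g1, h3, if_true]
      refine hc1' _ (h1 h3) _ (k1 h3) ?_ (Or.inr ?_)
      · intro h4
        exact haa (Prod.mk.inj h4).1
      · simp only [E.inv]
    · simp only [g1, h3]
      refine hc1' _ (h2 h3) _ (k2 h3) ?_ (Or.inl rfl)
      intro h4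
      exact haa (Prod.mk.inj h4).1
  -- stage 2
  let nk : Option Bool → V → V := fun k => match k with
    | none => E.N (Sum.inr q0)
    | some a => E.N (Sum.inl a)
  have hnk : ∀ k u, nk k (nk k u) = u := by
    intro k u
    cases k
    · exact E.inv _ _
    · exact E.inv _ _
  have hnkadj : ∀ k u, nk k u ≠ u → G.Adj u (nk k u) := by
    intro k u
    cases k
    · exact hsub _ _
    · exact hsub _ _
  let K : V → Finset (Fin 4) := fun x => (univ.filter (fun a => V1 a x)).image (fun a => g1 a x)
  let J : V → Finset Bool := fun x => univ.filter (fun a => E.N (Sum.inl a) x ≠ x ∧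
    B (E.N (Sum.inl a) x))
  have hKJ : ∀ x, (K x).card + (J x).card ≤ 2 := by
    intro x
    have h1 : (K x).card ≤ (univ.filter (fun a => V1 a x)).card := card_image_le
    have h2 : Disjoint (univ.filter (fun a => V1 a x)) (J x) := by
      rw [disjoint_left]
      intro a ha hb
      exact (mem_filter.1 ha).2.2.2 (mem_filter.1 hb).2.2
    have h3 : ((univ.filter (fun a => V1 a x)) ∪ J x).card ≤ Fintype.card Bool := card_le_univ _
    rw [card_union_of_disjoint h2, Fintype.card_bool] at h3
    omega
  have hL2 : ∀ x, 1 + (J x).card ≤ (A x \ K x).card := by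
    intro x
    have h1 := hKJ x
    have h2 := hA3 x
    have h3 := le_card_sdiff (K x) (A x)
    omega
  let S2 : Finset (Option Bool × V) := univ.filter (fun p => B p.2 ∧ nk p.1 p.2 ≠ p.2)
  have hS2 : ∀ k b, (k, b) ∈ S2 ↔ (B b ∧ nk k b ≠ b) := fun k b => by simp [S2]
  let la : Option Bool × V → ℕ := fun p => match p.1 with
    | none => 0
    | some false => 1
    | some true => 2
  let ra : Option Bool × V → ℕ := fun p => match p.1 with
    | none => 2
    | some false => 0
    | some true => 1
  have hla : ∀ e f : Option Bool × V, e.2 = f.2 → la e = la f → e = f := by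
    rintro ⟨k, u⟩ ⟨k', u'⟩ h1 h2
    simp only at h1
    subst h1
    rcases k with _ | _ | _ <;> rcases k' with _ | _ | _ <;> simp_all [la]
  have hra : ∀ e f : Option Bool × V, nk e.1 e.2 = nk f.1 f.2 → ra e = ra f → e = f := by
    rintro ⟨k, u⟩ ⟨k', u'⟩ h1 h2
    have h3 : k = k' := by
      rcases k with _ | _ | _ <;> rcases k' with _ | _ | _ <;> simp_all [ra]
    subst h3
    have h4 := congrArg (nk k) h1
    simp only [hnk] at h4
    rw [h4]
  have hout : ∀ e ∈ S2, outd (fun p : Option Bool × V => p.2) (fun p => nk p.1 p.2) la ra S2 e <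
      (A (nk e.1 e.2) \ K (nk e.1 e.2)).card := by
    rintro ⟨k, b⟩ he
    obtain ⟨hb, hkb⟩ := (hS2 k b).1 he
    refine lt_of_lt_of_le ?_ (hL2 _)
    set x := nk k b with hx
    have hxb : nk k x = b := by rw [hx, hnk]
    -- the better edges at the right end
    have hR : ∀ (n : ℕ) (T : Finset Bool), (∀ a b', (some a, b') ∈ S2 →
        E.N (Sum.inl a) b' = x → ra (some a, b') < n → a ∈ T) → n ≤ 2 →
        (S2.filter (fun f => nk f.1 f.2 = x ∧ ra f < n)).card ≤ T.card := by
      intro n T hT hn
      refine card_le_card_of_injOn (fun f => f.1.getD false) ?_ ?_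
      · rintro ⟨k', b'⟩ hf
        obtain ⟨h1, h2, h3⟩ := mem_filter.1 (mem_coe.1 hf)
        cases k' with
        | none =>
          exfalso
          simp only [ra] at h3
          omega
        | some a => exact mem_coe.2 (hT a b' h1 h2 h3)
      · rintro ⟨k1, b1⟩ hf1 ⟨k2, b2⟩ hf2 h
        obtain ⟨h1, h2, h3⟩ := mem_filter.1 (mem_coe.1 hf1)
        obtain ⟨i1, i2, i3⟩ := mem_filter.1 (mem_coe.1 hf2)
        have hk : k1 = k2 := by
          cases k1 with
          | none =>
            exfalso
            simp only [ra] at h3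
            omega
          | some a =>
            cases k2 with
            | none =>
              exfalso
              simp only [ra] at i3
              omega
            | some a' =>
              simp only [Option.getD_some] at h
              rw [h]
        subst hk
        refine hra _ _ (h2.trans i2.symm) rfl
    cases k with
    | none =>
      have h1 : (S2.filter (fun f : Option Bool × V => f.2 = b ∧ la f < la (none, b))).card = 0 := by
        rw [card_eq_zero, filter_eq_empty_iff]
        intro f _ hf
        simp only [la] at hf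
        omega
      have h2 := hR 2 (J x) (by
        intro a b' hab hx' _
        obtain ⟨k1, k2⟩ := (hS2 _ _).1 hab
        have h3 : E.N (Sum.inl a) x = b' := by rw [← hx', E.inv]
        refine mem_filter.2 ⟨mem_univ _, ?_, ?_⟩
        · rw [h3]
          intro h4
          exact k2 (by
            show E.N (Sum.inl a) b' = b'
            rw [hx', h4])
        · rw [h3]
          exact k1) le_rfl
      have h3 : outd (fun p : Option Bool × V => p.2) (fun p => nk p.1 p.2) la ra S2 (none, b) =
        (S2.filter (fun f : Option Bool × V => f.2 = b ∧ la f < la (none, b))).card +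
        (S2.filter (fun f => nk f.1 f.2 = x ∧ ra f < 2)).card := rfl
      rw [h3, h1]
      omega
    | some a =>
      have ha : a ∈ J x := by
        refine mem_filter.2 ⟨mem_univ _, ?_, ?_⟩
        · show nk (some a) x ≠ x
          rw [hxb]
          exact fun h => hkb h.symm
        · show B (nk (some a) x)
          rw [hxb]
          exact hb
      have h1 : (S2.filter (fun f : Option Bool × V => f.2 = b ∧ la f < la (some a, b))).card ≤ 1 := by
        have hsub' : S2.filter (fun f : Option Bool × V => f.2 = b ∧ la f < la (some a, b)) ⊆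
            {(none, b)} := by
          rintro ⟨k', b'⟩ hf
          obtain ⟨h1, h2, h3⟩ := mem_filter.1 hf
          simp only at h2
          subst h2
          rw [mem_singleton]
          rcases k' with _ | _ | _
          · rfl
          · -- class `false` and class `true` at `b`
            exfalso
            cases a with
            | false => simp [la] at h3
            | true =>
              obtain ⟨a', ha'⟩ := hB1 b' hb
              obtain ⟨_, k2⟩ := (hS2 _ _).1 h1
              cases a' with
              | false => exact k2 ha'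
              | true => exact hkb ha'
          · exfalso
            cases a <;> simp [la] at h3
        exact (card_le_card hsub').trans (by simp)
      have h2 := hR (ra (some a, b)) ((J x).erase a) (by
        intro a' b' hab hx' hlt
        obtain ⟨k1, k2⟩ := (hS2 _ _).1 hab
        have h3 : E.N (Sum.inl a') x = b' := by rw [← hx', E.inv]
        refine mem_erase.2 ⟨?_, mem_filter.2 ⟨mem_univ _, ?_, ?_⟩⟩
        · rintro rfl
          exact lt_irrefl _ hlt
        · rw [h3]
          intro h4
          exact k2 (by
            show E.N (Sum.inl a') b' = b'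
            rw [hx', h4])
        · rw [h3]
          exact k1) (by cases a <;> simp [ra])
      have h4 := card_erase_of_mem ha
      have h5 : 0 < (J x).card := card_pos.2 ⟨a, ha⟩
      have h3 : outd (fun p : Option Bool × V => p.2) (fun p => nk p.1 p.2) la ra S2 (some a, b) =
        (S2.filter (fun f : Option Bool × V => f.2 = b ∧ la f < la (some a, b))).card +
        (S2.filter (fun f => nk f.1 f.2 = x ∧ ra f < ra (some a, b))).card := rfl
      rw [h3]
      omega
  obtain ⟨c2, hc2, hc2'⟩ := galvin (κ := Fin 4) (fun p : Option Bool × V => p.2)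
    (fun p => nk p.1 p.2) la ra hla hra _ S2 (fun p => A (nk p.1 p.2) \ K (nk p.1 p.2)) rfl hout
  -- the colours of the edges
  let kk : V → V → Option Bool := fun u v => if E.N (Sum.inl false) u = v then some false else
    if E.N (Sum.inl true) u = v then some true else none
  have hNs : ∀ a u v, E.N a u = v ↔ E.N a v = u := by
    intro a u v
    constructor
    · rintro rfl
      exact E.inv _ _
    · rintro rfl
      exact E.inv _ _
  have hkks : ∀ u v, kk u v = kk v u := by
    intro u v
    simp only [kk]
    rw [hNs (Sum.inl false) u v, hNs (Sum.inl true) u v]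
  have hkka : ∀ u v a, kk u v = some a → E.N (Sum.inl a) u = v := by
    intro u v a h
    by_cases h1 : E.N (Sum.inl false) u = v
    · have h2 : kk u v = some false := if_pos h1
      rw [h2] at h
      cases h
      exact h1
    · by_cases h3 : E.N (Sum.inl true) u = v
      · have h2 : kk u v = some true := (if_neg h1).trans (if_pos h3)
        rw [h2] at h
        cases h
        exact h3
      · have h2 : kk u v = none := (if_neg h1).trans (if_neg h3)
        rw [h2] at h
        cases h
  let gm : Option Bool → V → Fin 4 := fun k u => match k with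
    | none => 0
    | some a => g1 a u
  let gg : V → V → Fin 4 := fun u v => if B u ∧ ¬ B v then c2 (kk u v, u) else
    if B v ∧ ¬ B u then c2 (kk u v, v) else gm (kk u v) u
  have hggs : ∀ u v, gg u v = gg v u := by
    intro u v
    simp only [gg]
    rw [hkks v u]
    by_cases hu : B u <;> by_cases hv : B v
    · simp only [hu, hv]
      simp only [not_true_eq_false, and_false, if_false]
      cases h : kk u v with
      | none => rfl
      | some a =>
        show g1 a u = g1 a v
        rw [← hkka u v a h, hg1s]
    · simp only [hu, hv]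
      simp
    · simp only [hu, hv]
      simp
    · simp only [hu, hv]
      simp only [false_and, if_false]
      cases h : kk u v with
      | none => rfl
      | some a =>
        show g1 a u = g1 a v
        rw [← hkka u v a h, hg1s]
  have hHed : ∀ u v, G.Adj u v → Hed E S c u v → nk (kk u v) u = v ∧
      (kk u v = none → B u ∨ B v) := by
    intro u v huv h
    cases hk : kk u v with
    | some a => exact ⟨hkka u v a hk, fun h => by cases h⟩
    | none =>
      have h1 : ∀ a : Bool, E.N (Sum.inl a) u ≠ v := by
        intro a ha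
        have h2 : kk u v ≠ none := by
          by_cases h1 : E.N (Sum.inl false) u = v
          · have h2 : kk u v = some false := if_pos h1
            rw [h2]
            simp
          · cases a with
            | false => exact absurd ha h1
            | true =>
              have h2 : kk u v = some true := (if_neg h1).trans (if_pos ha)
              rw [h2]
              simp
        exact h2 hk
      rcases h with ⟨a, ha⟩ | ⟨j, hj, h⟩
      · exact absurd ha (h1 a)
      · have h2 : ∀ w, w ∈ S → c w = Sum.inr j → E.N (Sum.inr j) w ≠ w → B w ∧ j = q0 := by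
          intro w hw hcw hne
          obtain ⟨h3, h4 | ⟨h4, h5⟩⟩ := hcr w j hcw
          · exact absurd h4 hne
          · exact ⟨⟨hw, h3, h4⟩, h5⟩
        have hne1 : E.N (Sum.inr j) u ≠ u := by
          rw [hj]
          exact huv.ne'
        have hne2 : E.N (Sum.inr j) v ≠ v := by
          rw [← hj, E.inv, hj]
          exact huv.ne
        rcases h with ⟨h3, h4⟩ | ⟨h3, h4⟩
        · obtain ⟨h5, h6⟩ := h2 u h3 h4 hne1
          subst h6
          exact ⟨hj, fun _ => Or.inl h5⟩
        · obtain ⟨h5, h6⟩ := h2 v h3 h4 hne2
          subst h6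
          exact ⟨hj, fun _ => Or.inr h5⟩
  have hV1 : ∀ u v a, G.Adj u v → ¬ B u → ¬ B v → kk u v = some a → V1 a u := by
    intro u v a huv hu hv h
    have h1 := hkka u v a h
    refine ⟨?_, hu, ?_⟩
    · rw [h1]
      exact huv.ne'
    · rw [h1]
      exact hv
  have hS2m : ∀ u v, G.Adj u v → B u → nk (kk u v) u = v → (kk u v, u) ∈ S2 := by
    intro u v huv hu h
    rw [hS2]
    exact ⟨hu, by rw [h]; exact huv.ne'⟩
  have hnks : ∀ u v, nk (kk u v) u = v → nk (kk u v) v = u := by
    intro u v h
    have h1 := congrArg (nk (kk u v)) h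
    rw [hnk] at h1
    exact h1.symm
  obtain ⟨e, he1, he2⟩ := assemble G E hcov S c gg hggs
    (by
      intro u v w huv huw hvw h1 h2
      obtain ⟨a1, a2⟩ := hHed u v huv h1
      obtain ⟨b1, b2⟩ := hHed u w huw h2
      have hkne : kk u v ≠ kk u w := by
        intro h
        rw [h, b1] at a1
        exact hvw a1.symm
      by_cases hu : B u
      · have hv : ¬ B v := fun h => hBB u v hu h huv
        have hw : ¬ B w := fun h => hBB u w hu h huw
        simp only [gg, hu, hv, hw, not_false_eq_true, and_self, if_true]
        refine hc2' _ (hS2m u v huv hu a1) _ (hS2m u w huw hu b1) ?_ (Or.inl rfl)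
        intro h
        exact hkne (Prod.mk.inj h).1
      · by_cases hv : B v <;> by_cases hw : B w
        · have g2 : gg u v = c2 (kk u v, v) := by simp [gg, hu, hv]
          have g3 : gg u w = c2 (kk u w, w) := by simp [gg, hu, hw]
          rw [g2, g3]
          refine hc2' _ ?_ _ ?_ ?_ (Or.inr ?_)
          · rw [hS2, hnks u v a1]
            exact ⟨hv, huv.ne⟩
          · rw [hS2, hnks u w b1]
            exact ⟨hw, huw.ne⟩
          · intro h
            exact hkne (Prod.mk.inj h).1
          · show nk (kk u v) v = nk (kk u w) w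
            rw [hnks u v a1, hnks u w b1]
        · have g2 : gg u v = c2 (kk u v, v) := by simp [gg, hu, hv]
          have g3 : gg u w = gm (kk u w) u := by simp [gg, hu, hw]
          have h3 : (kk u v, v) ∈ S2 := by
            rw [hS2, hnks u v a1]
            exact ⟨hv, huv.ne⟩
          have h4 := hc2 _ h3
          simp only [hnks u v a1] at h4
          cases hk : kk u w with
          | none =>
            rcases b2 hk with h5 | h5
            · exact absurd h5 hu
            · exact absurd h5 hw
          | some a =>
            rw [g2, g3, hk]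
            intro h5
            refine (mem_sdiff.1 h4).2 ?_
            rw [h5]
            exact mem_image.2 ⟨a, mem_filter.2 ⟨mem_univ _, hV1 u w a huw hu hw hk⟩, rfl⟩
        · have g2 : gg u v = gm (kk u v) u := by simp [gg, hu, hv]
          have g3 : gg u w = c2 (kk u w, w) := by simp [gg, hu, hw]
          have h3 : (kk u w, w) ∈ S2 := by
            rw [hS2, hnks u w b1]
            exact ⟨hw, huw.ne⟩
          have h4 := hc2 _ h3
          simp only [hnks u w b1] at h4
          cases hk : kk u v with
          | none =>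
            rcases a2 hk with h5 | h5
            · exact absurd h5 hu
            · exact absurd h5 hv
          | some a =>
            rw [g2, g3, hk]
            intro h5
            refine (mem_sdiff.1 h4).2 ?_
            rw [← h5]
            exact mem_image.2 ⟨a, mem_filter.2 ⟨mem_univ _, hV1 u v a huv hu hv hk⟩, rfl⟩
        · have g2 : gg u v = gm (kk u v) u := by simp [gg, hu, hv]
          have g3 : gg u w = gm (kk u w) u := by simp [gg, hu, hw]
          cases hk : kk u v with
          | none =>
            rcases a2 hk with h5 | h5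
            · exact absurd h5 hu
            · exact absurd h5 hv
          | some a =>
            cases hk' : kk u w with
            | none =>
              rcases b2 hk' with h5 | h5
              · exact absurd h5 hu
              · exact absurd h5 hw
            | some a' =>
              rw [g2, g3, hk, hk']
              refine hg1d a a' u ?_ (hV1 u v a huv hu hv hk) (hV1 u w a' huw hu hw hk')
              rintro rfl
              exact hkne (hk.trans hk'.symm))
    (by
      intro u hu v p huv h1 hcu
      obtain ⟨a1, a2⟩ := hHed u v huv h1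
      have hp := hAp u hu p hcu
      have hBu : ¬ B u := fun h => h.2.1 (hcl u p hcu).1
      by_cases hv : B v
      · have g2 : gg u v = c2 (kk u v, v) := by simp [gg, hBu, hv]
        have h3 : (kk u v, v) ∈ S2 := by
          rw [hS2, hnks u v a1]
          exact ⟨hv, huv.ne⟩
        have h4 := hc2 _ h3
        simp only [hnks u v a1] at h4
        rw [g2]
        rintro rfl
        exact hp (mem_sdiff.1 h4).1
      · have g2 : gg u v = gm (kk u v) u := by simp [gg, hBu, hv]
        cases hk : kk u v with
        | none =>
          rcases a2 hk with h5 | h5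
          · exact absurd h5 hBu
          · exact absurd h5 hv
        | some a =>
          rw [g2, hk]
          rintro rfl
          exact hp (hg1A a u (hV1 u v a huv hBu hv hk)))
  refine ⟨c, e, ?_, he1, he2⟩
  intro u hu v hv huv h
  cases hcu : c u with
  | inl p =>
    rw [hcu] at h
    obtain ⟨_, h2⟩ := hcl u p hcu
    obtain ⟨_, h4⟩ := hcl v p h.symm
    exact hφ u hu v hv huv (Fin.ext (h2.symm.trans h4))
  | inr j =>
    rw [hcu] at h
    have h2 := (hcr u j hcu).1
    have h4 := (hcr v j h.symm).1
    exact hφ u hu v hv huv (Fin.ext ((h45 u h2).trans (h45 v h4).symm))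

end Pool.TF
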