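import Pool.Agent.Helper9.TF.PartA

/-!
Part (b): six classes of vertices and an edge colouring with one colour less.
-/

set_option autoImplicit false

namespace Pool.TF

open Pool.TC Finset
open scoped Classical

theorem part_b {V β : Type*} [Fintype V] (G : SimpleGraph V) (E : EC (Bool ⊕ β) V)
    (hcov : ∀ u v, G.Adj u v → ∃ a, E.N a u = v) (hsub : ∀ a u, E.N a u ≠ u → G.Adj u (E.N a u))
    (q0 : β) (S : Set V) (φ : V → Fin 6)
    (hφ : ∀ u ∈ S, ∀ v ∈ S, G.Adj u v → φ u ≠ φ v) :
    ∃ (c : V → Fin 5 ⊕ β) (e : Sym2 V → Fin 5 ⊕ β),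
      (∀ u ∈ S, ∀ v ∈ S, G.Adj u v → c u ≠ c v) ∧
      (∀ u v w, G.Adj u v → G.Adj u w → v ≠ w → e s(u, v) ≠ e s(u, w)) ∧
      (∀ u ∈ S, ∀ v, G.Adj u v → e s(u, v) ≠ c u) := by
  -- the colours of the vertices
  let c : V → Fin 5 ⊕ β := fun v => if h : (φ v).val < 5 then Sum.inl ⟨(φ v).val, h⟩ else
    Sum.inr q0
  let W : V → Prop := fun v => v ∈ S ∧ ¬ (φ v).val < 5
  have hcl : ∀ v p, c v = Sum.inl p → (φ v).val < 5 ∧ p.val = (φ v).val := by
    intro v p h
    by_cases h1 : (φ v).val < 5
    · refine ⟨h1, ?_⟩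
      have h2 : c v = Sum.inl ⟨(φ v).val, h1⟩ := dif_pos h1
      rw [h2] at h
      rw [← Sum.inl_injective h]
    · have h3 : c v = Sum.inr q0 := dif_neg h1
      rw [h3] at h
      cases h
  have hcr : ∀ v j, c v = Sum.inr j → ¬ (φ v).val < 5 ∧ j = q0 := by
    intro v p h
    by_cases h1 : (φ v).val < 5
    · have h2 : c v = Sum.inl ⟨(φ v).val, h1⟩ := dif_pos h1
      rw [h2] at h
      cases h
    · have h3 : c v = Sum.inr q0 := dif_neg h1
      rw [h3] at h
      exact ⟨h1, (Sum.inr_injective h).symm⟩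
  have h45 : ∀ v, ¬ (φ v).val < 5 → (φ v).val = 5 := by
    intro v h
    have := (φ v).isLt
    omega
  have hWW : ∀ u v, W u → W v → ¬ G.Adj u v := by
    intro u v hu hv huv
    exact hφ u hu.1 v hv.1 huv (Fin.ext ((h45 u hu.2).trans (h45 v hv.2).symm))
  -- the available colours
  let A : V → Finset (Fin 5) := fun v =>
    if h : v ∈ S ∧ (φ v).val < 5 then univ.erase ⟨(φ v).val, h.2⟩ else univ
  let w : V → ℕ := fun v => if W v then 1 else 0
  have hA : ∀ v, 4 + w v ≤ (A v).card := by
    intro v
    by_cases h : v ∈ S ∧ (φ v).val < 5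
    · have h1 : A v = univ.erase ⟨(φ v).val, h.2⟩ := dif_pos h
      have h2 : w v = 0 := if_neg (fun h3 => h3.2 h.2)
      rw [h1, h2, card_erase_of_mem (mem_univ _)]
      simp
    · have h1 : A v = univ := dif_neg h
      have h2 : w v ≤ 1 := by
        simp only [w]
        split_ifs <;> omega
      rw [h1]
      simp only [card_univ, Fintype.card_fin]
      omega
  have hA2 : ∀ u v, 3 + w u + w v ≤ (A u ∩ A v).card := by
    intro u v
    have h1 := card_inter_ge (A u) (A v)
    have h2 := hA u
    have h3 := hA v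
    rw [Fintype.card_fin] at h1
    omega
  have hAp : ∀ v ∈ S, ∀ p, c v = Sum.inl p → p ∉ A v := by
    intro v hv p h
    obtain ⟨h1, h2⟩ := hcl v p h
    have h3 : A v = univ.erase ⟨(φ v).val, h1⟩ := dif_pos ⟨hv, h1⟩
    rw [h3, Fin.ext h2 (b := ⟨(φ v).val, h1⟩)]
    exact notMem_erase _ _
  -- the class `false` gets arbitrary colours
  have hpick : ∃ f : Finset (Fin 5) → Fin 5, ∀ s, s.Nonempty → f s ∈ s := by
    refine ⟨fun s => if h : s.Nonempty then h.choose else 0, ?_⟩
    intro s hs
    simp only [hs, dif_pos]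
    exact hs.choose_spec
  obtain ⟨pick, hpick⟩ := hpick
  let N0 : V → V := E.N (Sum.inl false)
  let μ : V → Fin 5 := fun u => pick (A u ∩ A (N0 u))
  have hμs : ∀ u, μ (N0 u) = μ u := by
    intro u
    show pick (A (N0 u) ∩ A (N0 (N0 u))) = pick (A u ∩ A (N0 u))
    have h1 : N0 (N0 u) = u := E.inv _ _
    rw [h1, inter_comm]
  have hμ : ∀ u, μ u ∈ A u := by
    intro u
    have h1 : (A u ∩ A (N0 u)).Nonempty := by
      rw [← card_pos]
      have := hA2 u (N0 u)
      omega
    exact (mem_inter.1 (hpick _ h1)).1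
  -- the other edges
  let nk : Bool → V → V := fun k => if k then E.N (Sum.inr q0) else E.N (Sum.inl true)
  have hnk : ∀ k u, nk k (nk k u) = u := by
    intro k u
    cases k
    · exact E.inv _ _
    · exact E.inv _ _
  obtain ⟨τ, hτ1, hτ2⟩ := bip (nk false) (nk true) (hnk _) (hnk _)
  have hτ : ∀ (a : Bool) u, nk a u ≠ u → τ (nk a u) ≠ τ u := by
    intro a u hu
    cases a
    · exact hτ1 u hu
    · exact hτ2 u hu
  let rk : V → Bool → ℕ := fun v k => if W v then (if k then 0 else 1) else (if k then 1 else 0)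
  have hrk : ∀ v k k', rk v k = rk v k' → k = k' := by
    intro v k k' h
    by_cases hv : W v
    · cases k <;> cases k' <;> simp [rk, hv] at h ⊢
    · cases k <;> cases k' <;> simp [rk, hv] at h ⊢
  let M : V → Finset (Fin 5) := fun u => {μ u}
  let L : Bool × V → Finset (Fin 5) := fun p => (A p.2 ∩ A (nk p.1 p.2)) \ (M p.2 ∪ M (nk p.1 p.2))
  have hLc : ∀ k u, 1 + w u + w (nk k u) ≤ (L (k, u)).card := by
    intro k u
    have h1 := hA2 u (nk k u)
    have h2 := le_card_sdiff (M u ∪ M (nk k u)) (A u ∩ A (nk k u))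
    have h3 : (M u ∪ M (nk k u)).card ≤ 2 := by
      refine (card_union_le _ _).trans ?_
      simp [M]
    have h4 : (L (k, u)) = (A u ∩ A (nk k u)) \ (M u ∪ M (nk k u)) := rfl
    rw [h4]
    omega
  let S1 : Finset (Bool × V) := univ.filter (fun p => τ p.2 = false ∧
    nk p.1 p.2 ≠ p.2 ∧ (p.1 = true → W p.2 ∨ W (nk p.1 p.2)))
  have hS1 : ∀ a u, (a, u) ∈ S1 ↔ (τ u = false ∧ nk a u ≠ u ∧ (a = true → W u ∨ W (nk a u))) :=
    fun a u => by simp [S1]
  have hnkadj : ∀ k u, nk k u ≠ u → G.Adj u (nk k u) := by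
    intro k u
    cases k
    · exact hsub _ _
    · exact hsub _ _
  have hl : ∀ e f : Bool × V, e.2 = f.2 → rk e.2 e.1 = rk f.2 f.1 → e = f := by
    rintro ⟨a, u⟩ ⟨a', u'⟩ h1 h2
    simp only at h1 h2
    subst h1
    rw [hrk _ _ _ h2]
  have hr : ∀ e f : Bool × V, nk e.1 e.2 = nk f.1 f.2 → rk (nk e.1 e.2) e.1 = rk (nk f.1 f.2) f.1 →
      e = f := by
    rintro ⟨a, u⟩ ⟨a', u'⟩ h1 h2
    simp only at h1 h2
    rw [h1] at h2
    have h3 := hrk _ _ _ h2
    subst h3
    have h4 := congrArg (nk a) h1
    rw [hnk, hnk] at h4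
    rw [h4]
  obtain ⟨c1, hc1, hc1'⟩ := galvin (κ := Fin 5) (fun p : Bool × V => p.2)
    (fun p : Bool × V => nk p.1 p.2) (fun p => rk p.2 p.1)
    (fun p => rk (nk p.1 p.2) p.1) hl hr _ S1 L rfl
    (by
      rintro ⟨k, u⟩ he
      refine lt_of_le_of_lt (outd_le _ _ _ _ hl hr _ _) (lt_of_lt_of_le ?_ (hLc _ _))
      obtain ⟨h1, h2, h3⟩ := (hS1 _ _).1 he
      show rk u k + rk (nk k u) k < 1 + w u + w (nk k u)
      cases k with
      | false =>
        simp only [rk, w]
        by_cases hu : W u <;> by_cases hv : W (nk false u) <;> simp [hu, hv]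
      | true =>
        simp only [rk, w]
        by_cases hu : W u <;> by_cases hv : W (nk true u)
        · exact absurd (hnkadj _ _ h2) (hWW _ _ hu hv)
        · simp [hu, hv]
        · simp [hu, hv]
        · rcases h3 rfl with h | h
          · exact absurd h hu
          · exact absurd h hv)
  let g1 : Bool → V → Fin 5 := fun a u => if τ u = true then c1 (a, nk a u) else c1 (a, u)
  have hg1s : ∀ a u, g1 a (nk a u) = g1 a u := by
    intro a u
    by_cases h : nk a u = u
    · rw [h]
    · have h1 := hτ a u h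
      by_cases h2 : τ u = true
      · have h3 : ¬ τ (nk a u) = true := fun h3 => h1 (h3.trans h2.symm)
        simp only [g1, h2, h3, if_true]
        simp
      · have h3 : τ (nk a u) = true := by
          cases h4 : τ (nk a u)
          · exact absurd (h4.trans (Bool.eq_false_of_not_eq_true h2).symm) h1
          · rfl
        simp only [g1, h3, if_true, hnk, h2]
        simp
  let V1 : Bool → V → Prop := fun a u => nk a u ≠ u ∧ (a = true → W u ∨ W (nk a u))
  have hmem : ∀ a u, V1 a u → (τ u = true → (a, nk a u) ∈ S1) ∧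
      (¬ τ u = true → (a, u) ∈ S1) := by
    rintro a u ⟨h1, h2⟩
    refine ⟨fun h => ?_, fun h => ?_⟩
    · rw [hS1, hnk]
      refine ⟨?_, fun h4 => h1 h4.symm, fun h4 => (h2 h4).symm⟩
      have h5 := hτ a u h1
      cases h4 : τ (nk a u)
      · rfl
      · exact absurd (h4.trans h.symm) h5
    · rw [hS1]
      exact ⟨Bool.eq_false_of_not_eq_true h, h1, h2⟩
  have hg1A : ∀ a u, V1 a u → g1 a u ∈ A u ∧ g1 a u ≠ μ u := by
    intro a u h
    obtain ⟨h1, h2⟩ := hmem a u h
    by_cases h3 : τ u = true
    · have h4 := hc1 _ (h1 h3)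
      simp only [g1, h3, if_true]
      obtain ⟨h5, h6⟩ := mem_sdiff.1 h4
      refine ⟨?_, ?_⟩
      · have h7 := (mem_inter.1 h5).2
        simpa [hnk] using h7
      · intro h8
        refine h6 (mem_union_right _ ?_)
        show c1 (a, nk a u) ∈ M (nk a (nk a u))
        rw [hnk]
        exact mem_singleton.2 h8
    · have h4 := hc1 _ (h2 h3)
      simp only [g1, h3]
      obtain ⟨h5, h6⟩ := mem_sdiff.1 h4
      refine ⟨(mem_inter.1 h5).1, ?_⟩
      intro h8
      exact h6 (mem_union_left _ (mem_singleton.2 h8))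
  have hg1d : ∀ a a' u, a ≠ a' → V1 a u → V1 a' u → g1 a u ≠ g1 a' u := by
    intro a a' u haa h h'
    obtain ⟨h1, h2⟩ := hmem a u h
    obtain ⟨k1, k2⟩ := hmem a' u h'
    by_cases h3 : τ u = true
    · simp only [g1, h3, if_true]
      refine hc1' _ (h1 h3) _ (k1 h3) ?_ (Or.inr ?_)
      · intro h4
        exact haa (Prod.mk.inj h4).1
      · simp only [hnk]
    · simp only [g1, h3]
      refine hc1' _ (h2 h3) _ (k2 h3) ?_ (Or.inl rfl)
      intro h4
      exact haa (Prod.mk.inj h4).1
  -- the colours of the edges: `none` stands for the class `false`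
  let kk : V → V → Option Bool := fun u v => if N0 u = v then none else
    if nk false u = v then some false else some true
  have hNs : ∀ a u v, nk a u = v ↔ nk a v = u := by
    intro a u v
    constructor
    · rintro rfl
      exact hnk _ _
    · rintro rfl
      exact hnk _ _
  have hN0 : ∀ u v, N0 u = v ↔ N0 v = u := by
    intro u v
    constructor
    · rintro rfl
      exact E.inv _ _
    · rintro rfl
      exact E.inv _ _
  have hkks : ∀ u v, kk u v = kk v u := by
    intro u v
    simp only [kk]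
    rw [hN0 u v, hNs false u v]
  let gm : Option Bool → V → Fin 5 := fun k u => match k with
    | none => μ u
    | some a => g1 a u
  let gg : V → V → Fin 5 := fun u v => if kk u v = some true ∧ nk true u ≠ v then 0 else gm (kk u v) u
  have hggs : ∀ u v, gg u v = gg v u := by
    intro u v
    simp only [gg]
    rw [hkks v u]
    have h1 : nk true u ≠ v ↔ nk true v ≠ u := not_congr (hNs true u v)
    by_cases h2 : kk u v = some true ∧ nk true v ≠ u
    · rw [if_pos h2, if_pos ⟨h2.1, h1.2 h2.2⟩]
    · rw [if_neg h2, if_neg (fun h => h2 ⟨h.1, h1.1 h.2⟩)]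
      by_cases h3 : N0 u = v
      · have h4 : kk u v = none := if_pos h3
        rw [h4]
        show μ u = μ v
        rw [← h3, hμs]
      · by_cases h5 : nk false u = v
        · have h4 : kk u v = some false := (if_neg h3).trans (if_pos h5)
          rw [h4]
          show g1 false u = g1 false v
          rw [← h5, hg1s]
        · have h4 : kk u v = some true := (if_neg h3).trans (if_neg h5)
          have h6 : nk true v = u := by
            by_contra h6
            exact h2 ⟨h4, h6⟩
          rw [h4]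
          show g1 true u = g1 true v
          rw [← h6, hg1s]
  have hHed : ∀ u v, G.Adj u v → Hed E S c u v →
      (N0 u = v ∧ gg u v = μ u) ∨ ∃ a, nk a u = v ∧ V1 a u ∧ gg u v = g1 a u := by
    intro u v huv h
    by_cases h1 : N0 u = v
    · left
      refine ⟨h1, ?_⟩
      have h4 : kk u v = none := if_pos h1
      have h5 : ¬ (kk u v = some true ∧ nk true u ≠ v) := by
        rw [h4]
        simp
      have h6 : gg u v = gm (kk u v) u := if_neg h5
      rw [h6, h4]
    · right
      by_cases h2 : nk false u = v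
      · have h4 : kk u v = some false := (if_neg h1).trans (if_pos h2)
        have h5 : ¬ (kk u v = some true ∧ nk true u ≠ v) := by
          rw [h4]
          simp
        have h6 : gg u v = gm (kk u v) u := if_neg h5
        refine ⟨false, h2, ⟨?_, fun h => by cases h⟩, ?_⟩
        · rw [h2]
          exact huv.ne'
        · rw [h6, h4]
      · have h4 : kk u v = some true := (if_neg h1).trans (if_neg h2)
        rcases h with ⟨a, ha⟩ | ⟨j, hj, h⟩
        · exfalso
          cases a with
          | false => exact h1 ha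
          | true => exact h2 ha
        · have h7 : j = q0 ∧ (W u ∨ W v) := by
            rcases h with ⟨h3, h5⟩ | ⟨h3, h5⟩
            · obtain ⟨h6, h7⟩ := hcr u j h5
              exact ⟨h7, Or.inl ⟨h3, h6⟩⟩
            · obtain ⟨h6, h7⟩ := hcr v j h5
              exact ⟨h7, Or.inr ⟨h3, h6⟩⟩
          obtain ⟨h8, h9⟩ := h7
          subst h8
          have h10 : nk true u = v := hj
          have h5 : ¬ (kk u v = some true ∧ nk true u ≠ v) := fun h => h.2 h10
          have h6 : gg u v = gm (kk u v) u := if_neg h5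
          refine ⟨true, h10, ⟨?_, fun _ => ?_⟩, ?_⟩
          · rw [h10]
            exact huv.ne'
          · rw [h10]
            exact h9
          · rw [h6, h4]
  obtain ⟨e, he1, he2⟩ := assemble G E hcov S c gg hggs
    (by
      intro u v w huv huw hvw h1 h2
      rcases hHed u v huv h1 with ⟨a1, a2⟩ | ⟨a, a1, a2, a3⟩ <;>
        rcases hHed u w huw h2 with ⟨b1, b2⟩ | ⟨b, b1, b2, b3⟩
      · exact absurd (a1.symm.trans b1) hvw
      · rw [a2, b3]
        exact fun h => (hg1A b u b2).2 h.symm
      · rw [a3, b2]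
        exact (hg1A a u a2).2
      · rw [a3, b3]
        refine hg1d a b u ?_ a2 b2
        rintro rfl
        exact hvw (a1.symm.trans b1))
    (by
      intro u hu v p huv h1 hcu
      have hp := hAp u hu p hcu
      rcases hHed u v huv h1 with ⟨a1, a2⟩ | ⟨a, a1, a2, a3⟩
      · rw [a2]
        rintro rfl
        exact hp (hμ u)
      · rw [a3]
        rintro rfl
        exact hp (hg1A a u a2).1)
  refine ⟨c, e, ?_, he1, he2⟩
  intro u hu v hv huv h
  cases hcu : c u with
  | inl p =>
    rw [hcu] at h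
    obtain ⟨_, h2⟩ := hcl u p hcu
    obtain ⟨_, h4⟩ := hcl v p h.symm
    exact hφ u hu v hv huv (Fin.ext (h2.symm.trans h4))
  | inr j =>
    rw [hcu] at h
    have h2 := (hcr u j hcu).1
    have h4 := (hcr v j h.symm).1
    exact hφ u hu v hv huv (Fin.ext ((h45 u h2).trans (h45 v h4).symm))

end Pool.TF
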